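import Mathlib
import Pool.Agent.Q273.MV.Stm

/-!
# Job PIG: pigeonhole in the powers of the ring of integers
-/

set_option autoImplicit false
set_option maxHeartbeats 400000
set_option linter.unusedSectionVars false
set_option linter.unusedVariables false
set_option linter.style.haveILetI false

open NumberField NumberField.mixedEmbedding Finset

namespace Pool.Agent.Q6.MV

variable {K : Type} [Field K] [NumberField K]

/-- the index type of the integral basis -/
abbrev BI (K : Type) [Field K] [NumberField K] := Module.Free.ChooseBasisIndex ℤ (𝓞 K)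

variable (K) in
theorem card_BI : Fintype.card (BI K) = Module.finrank ℚ K := by
  rw [← RingOfIntegers.rank, Module.finrank_eq_card_chooseBasisIndex]

/-- integral linear combinations of the basis -/
noncomputable def comb (c : BI K → ℤ) : 𝓞 K := ∑ i, c i • RingOfIntegers.basis K i

theorem comb_inj {c c' : BI K → ℤ} (h : comb c = comb c') : c = c' := by
  apply (RingOfIntegers.basis K).equivFun.symm.injective
  rw [Module.Basis.equivFun_symm_apply, Module.Basis.equivFun_symm_apply]
  exact h

theorem comb_sub (c c' : BI K → ℤ) : comb c - comb c' = comb (c - c') := by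
  unfold comb
  rw [← Finset.sum_sub_distrib]
  refine Finset.sum_congr rfl fun i _ => ?_
  rw [Pi.sub_apply, sub_smul]

theorem coe_comb (c : BI K → ℤ) : ((comb c : 𝓞 K) : K) =
    ∑ i, ((c i : ℤ) : K) * ((RingOfIntegers.basis K i : 𝓞 K) : K) := by
  unfold comb
  refine (map_sum (algebraMap (𝓞 K) K) _ univ).trans ?_
  refine Finset.sum_congr rfl fun i _ => ?_
  rw [zsmul_eq_mul, map_mul, map_intCast]

theorem me_comb (c : BI K → ℤ) : mixedEmbedding K ((comb c : 𝓞 K) : K) =
    ∑ i, (c i : ℝ) • latticeBasis K i := by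
  rw [coe_comb, map_sum]
  refine Finset.sum_congr rfl fun i _ => ?_
  rw [map_mul, map_intCast, latticeBasis_apply, integralBasis_apply, ← zsmul_eq_mul,
    Int.cast_smul_eq_zsmul]

theorem w_intCast (w : InfinitePlace K) (m : ℤ) : w ((m : ℤ) : K) = |(m : ℝ)| := by
  rw [← InfinitePlace.norm_embedding_eq, map_intCast, Complex.norm_intCast]

/-- the sum of the absolute values of the basis -/
noncomputable def Sw (w : InfinitePlace K) : ℝ :=
  ∑ i, w ((RingOfIntegers.basis K i : 𝓞 K) : K)

theorem Sw_nonneg (w : InfinitePlace K) : 0 ≤ Sw w :=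
  Finset.sum_nonneg fun i _ => apply_nonneg w _

theorem comb_size (w : InfinitePlace K) (c : BI K → ℤ) (M : ℝ) (h : ∀ i, |(c i : ℝ)| ≤ M) :
    w ((comb c : 𝓞 K) : K) ≤ M * Sw w := by
  rw [coe_comb]
  refine (w.1.sum_le _ _).trans ?_
  unfold Sw
  rw [Finset.mul_sum]
  refine Finset.sum_le_sum fun i _ => ?_
  have h1 : w (((c i : ℤ) : K) * ((RingOfIntegers.basis K i : 𝓞 K) : K)) =
      |(c i : ℝ)| * w ((RingOfIntegers.basis K i : 𝓞 K) : K) := by
    rw [map_mul, w_intCast]
  exact h1.le.trans (mul_le_mul_of_nonneg_right (h i) (apply_nonneg w _))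

theorem normAt_sum_le (w : InfinitePlace K) {ι : Type*} (s : Finset ι) (f : ι → mixedSpace K) :
    normAtPlace w (∑ i ∈ s, f i) ≤ ∑ i ∈ s, normAtPlace w (f i) := by
  classical
  induction s using Finset.induction_on with
  | empty => rw [Finset.sum_empty, Finset.sum_empty, map_zero]
  | insert a s ha ih =>
    rw [Finset.sum_insert ha, Finset.sum_insert ha]
    exact (normAtPlace_add_le w _ _).trans (by linarith)

theorem size_small (w : InfinitePlace K) (x : mixedSpace K) (ε : ℝ)
    (h : ∀ i, |(latticeBasis K).repr x i| ≤ ε) : normAtPlace w x ≤ ε * Sw w := by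
  have h1 : x = ∑ i, (latticeBasis K).repr x i • latticeBasis K i :=
    ((latticeBasis K).sum_repr x).symm
  have h2 := normAt_sum_le w univ (fun i => (latticeBasis K).repr x i • latticeBasis K i)
  rw [← h1] at h2
  refine h2.trans ?_
  unfold Sw
  rw [Finset.mul_sum]
  refine Finset.sum_le_sum fun i _ => ?_
  rw [normAtPlace_smul, latticeBasis_apply, normAtPlace_apply, integralBasis_apply]
  exact mul_le_mul_of_nonneg_right (h i) (apply_nonneg w _)

/-- the integral part -/
noncomputable def ip (u : mixedSpace K) : 𝓞 K := comb fun i => ⌊(latticeBasis K).repr u i⌋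

theorem repr_sub_ip (u : mixedSpace K) (i : BI K) :
    (latticeBasis K).repr (u - mixedEmbedding K ((ip u : 𝓞 K) : K)) i =
      Int.fract ((latticeBasis K).repr u i) := by
  unfold ip
  rw [me_comb, map_sub, Finsupp.sub_apply, Module.Basis.repr_sum_self]
  rfl

theorem floor_eq_small {M : ℕ} (hM : 1 ≤ M) {a b : ℝ} (ha : 0 ≤ a) (hb : 0 ≤ b)
    (h : ⌊(M : ℝ) * a⌋₊ = ⌊(M : ℝ) * b⌋₊) : |a - b| ≤ 1 / M := by
  have hM0 : (0 : ℝ) < M := by exact_mod_cast hM
  have h1 := Nat.floor_le (mul_nonneg hM0.le ha)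
  have h2 := Nat.lt_floor_add_one ((M : ℝ) * a)
  have h3 := Nat.floor_le (mul_nonneg hM0.le hb)
  have h4 := Nat.lt_floor_add_one ((M : ℝ) * b)
  rw [h] at h1 h2
  rw [le_div_iff₀ hM0]
  have h5 : |a - b| * M = |M * a - M * b| := by
    rw [← mul_sub, abs_mul, abs_of_pos hM0, mul_comm]
  rw [h5, abs_le]
  constructor <;> linarith

theorem pig : Q273.MV.S_PIG := by
  classical
  intro K _ _ n ξ
  have hS : ∀ w : InfinitePlace K, Sw w ≤ ∑ v : InfinitePlace K, Sw v := fun w =>
    Finset.single_le_sum (f := fun v : InfinitePlace K => Sw v) (fun v _ => Sw_nonneg v)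
      (Finset.mem_univ w)
  have hS0 : 0 ≤ ∑ v : InfinitePlace K, Sw v := Finset.sum_nonneg fun v _ => Sw_nonneg v
  refine ⟨1 + ∑ v : InfinitePlace K, Sw v, by linarith, ?_⟩
  intro A _ _ φ N M hM hcard
  have hM0 : (0 : ℝ) < M := by exact_mod_cast hM
  haveI : Fintype A := Fintype.ofFinite A
  -- the elements
  let β : (BI K → Fin (N + 1)) → 𝓞 K := fun c => comb fun i => ((c i : ℕ) : ℤ)
  let u : (BI K → Fin (N + 1)) → Fin n → mixedSpace K :=
    fun c j => mixedEmbedding K ((β c : 𝓞 K) : K) * ξ j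
  let vec : (BI K → Fin (N + 1)) → Fin (n + 1) → 𝓞 K :=
    fun c => Fin.cons (β c) fun j => ip (u c j)
  let fl : (BI K → Fin (N + 1)) → Fin n → BI K → ℕ := fun c j i =>
    ⌊(M : ℝ) * Int.fract ((latticeBasis K).repr (u c j) i)⌋₊
  have hfl : ∀ c j i, fl c j i < M := by
    intro c j i
    have h1 := Int.fract_lt_one ((latticeBasis K).repr (u c j) i)
    have h2 := Int.fract_nonneg ((latticeBasis K).repr (u c j) i)
    have h3 : (M : ℝ) * Int.fract ((latticeBasis K).repr (u c j) i) < M := by nlinarith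
    exact (Nat.floor_lt (mul_nonneg hM0.le h2)).2 h3
  let F : (BI K → Fin (N + 1)) → (Fin n → BI K → Fin M) × A :=
    fun c => (fun j i => ⟨fl c j i, hfl c j i⟩, φ (vec c))
  obtain ⟨c, c', hne, hF⟩ := Fintype.exists_ne_map_eq_of_card_lt F (by
    rw [Fintype.card_prod, Fintype.card_fun, Fintype.card_fun, Fintype.card_fun,
      Fintype.card_fin, Fintype.card_fin, Fintype.card_fin, card_BI, ← pow_mul,
      ← Nat.card_eq_fintype_card]
    exact hcard)
  have hF1 : ∀ j i, fl c j i = fl c' j i := by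
    intro j i
    have h1 := congrFun (congrFun (congrArg Prod.fst hF) j) i
    exact congrArg Fin.val h1
  have hF2 : φ (vec c) = φ (vec c') := congrArg Prod.snd hF
  refine ⟨vec c - vec c', ?_, ?_, ?_, ?_⟩
  · intro h0
    have h1 : β c = β c' := sub_eq_zero.1 h0
    have h2 := comb_inj h1
    apply hne
    funext i
    have h3 := congrFun h2 i
    apply Fin.ext
    exact_mod_cast h3
  · rw [map_sub, hF2, sub_self]
  · intro w
    have h1 : (vec c - vec c') 0 = comb ((fun i => ((c i : ℕ) : ℤ)) - fun i => ((c' i : ℕ) : ℤ)) := by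
      change β c - β c' = _
      exact comb_sub _ _
    rw [h1]
    refine (comb_size w _ (N : ℝ) ?_).trans ?_
    · intro i
      rw [Pi.sub_apply]
      have h2 : ((c i : ℕ) : ℝ) ≤ N := by exact_mod_cast Nat.lt_succ_iff.1 (c i).2
      have h3 : ((c' i : ℕ) : ℝ) ≤ N := by exact_mod_cast Nat.lt_succ_iff.1 (c' i).2
      have h4 : (0 : ℝ) ≤ ((c i : ℕ) : ℝ) := Nat.cast_nonneg _
      have h5 : (0 : ℝ) ≤ ((c' i : ℕ) : ℝ) := Nat.cast_nonneg _
      push_cast
      rw [abs_le]
      constructor <;> linarith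
    · rw [mul_comm]
      refine mul_le_mul_of_nonneg_right ?_ (Nat.cast_nonneg _)
      have := hS w
      linarith
  · intro w j
    have h1 : mixedEmbedding K (((vec c - vec c') 0 : 𝓞 K) : K) * ξ j -
        mixedEmbedding K (((vec c - vec c') j.succ : 𝓞 K) : K) =
        (u c j - mixedEmbedding K ((ip (u c j) : 𝓞 K) : K)) -
        (u c' j - mixedEmbedding K ((ip (u c' j) : 𝓞 K) : K)) := by
      have e1 : (((vec c - vec c') 0 : 𝓞 K) : K) = ((β c : 𝓞 K) : K) - ((β c' : 𝓞 K) : K) := by
        change ((β c - β c' : 𝓞 K) : K) = _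
        exact map_sub (algebraMap (𝓞 K) K) _ _
      have e2 : (((vec c - vec c') j.succ : 𝓞 K) : K) =
          ((ip (u c j) : 𝓞 K) : K) - ((ip (u c' j) : 𝓞 K) : K) := by
        change ((ip (u c j) - ip (u c' j) : 𝓞 K) : K) = _
        exact map_sub (algebraMap (𝓞 K) K) _ _
      rw [e1, e2, map_sub, map_sub, sub_mul]
      change mixedEmbedding K ((β c : 𝓞 K) : K) * ξ j - mixedEmbedding K ((β c' : 𝓞 K) : K) * ξ j -
        _ = (mixedEmbedding K ((β c : 𝓞 K) : K) * ξ j - _) -
          (mixedEmbedding K ((β c' : 𝓞 K) : K) * ξ j - _)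
      ring
    rw [h1]
    refine (size_small w _ (1 / M) ?_).trans ?_
    · intro i
      rw [map_sub, Finsupp.sub_apply, repr_sub_ip, repr_sub_ip]
      exact floor_eq_small hM (Int.fract_nonneg _) (Int.fract_nonneg _) (hF1 j i)
    · rw [one_div_mul_eq_div]
      refine div_le_div_of_nonneg_right ?_ hM0.le
      have := hS w
      linarith

end Pool.Agent.Q6.MV
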